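import Pool.Agent.V11181.Dice3

/-!
# MP_f30851_co: the maximal probability of a residue class for sums of identical dice

For `n ≥ 2` and `1 ≤ k < n` put `r = n / gcd(n, k)`.  Then `M(n, k)` is the maximum over
`0 ≤ q ≤ 1` of the probability that a binomial variable with parameters `n, q` is congruent to
`1` modulo `r`; it is attained in the limit by dice with only the labels `0` and `k`.
If `gcd(n, k) = 1` this gives `M(n, k) = (1 - 1/n)^(n-1)`, and `M(2k, k) = 1/2`.
-/

set_option autoImplicit false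

namespace Pool.Agent.Results.MP_f30851_co.TwoValuedDice

open Finset Pool.Agent.V11181.Dice

/-- The probability that the sum of `n` independent tosses of the die with `m` faces labelled
`L 0, ..., L (m - 1)` is congruent to `k` modulo `n`. -/
noncomputable def prob (n m : ℕ) (L : Fin m → ℤ) (k : ℕ) : ℝ :=
  ((univ.filter (fun t : Fin n → Fin m => (∑ i, L (t i)) ≡ (k : ℤ) [ZMOD (n : ℤ)])).card : ℝ) /
    (m : ℝ) ^ n

/-- The supremum of these probabilities over all dice with at least two faces. -/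
noncomputable def M (n k : ℕ) : ℝ :=
  sSup {x : ℝ | ∃ (m : ℕ) (L : Fin m → ℤ), 2 ≤ m ∧ x = prob n m L k}

/-- The probability that a binomial variable with parameters `n, q` is `≡ 1` modulo `r`. -/
noncomputable def B (n r : ℕ) (q : ℝ) : ℝ :=
  ∑ j ∈ (range (n + 1)).filter (fun j : ℕ => j ≡ 1 [MOD r]),
    (n.choose j : ℝ) * q ^ j * (1 - q) ^ (n - j)

variable {n : ℕ} [NeZero n]

/-- residue distribution of a die -/
noncomputable def dist (n : ℕ) {m : ℕ} (L : Fin m → ℤ) (y : ZMod n) : ℝ :=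
  (∑ a : Fin m, if ((L a : ℤ) : ZMod n) = y then (1 : ℝ) else 0) / m

lemma count (m : ℕ) (hm : 0 < m) (L : Fin m → ℤ) : ∀ (N : ℕ) (x : ZMod n),
    (∑ t : Fin N → Fin m, if ((∑ i, L (t i) : ℤ) : ZMod n) = x then (1 : ℝ) else 0) =
      (m : ℝ) ^ N * cp (dist n L) N x := by
  have hm0 : (0 : ℝ) < m := by exact_mod_cast hm
  intro N
  induction N with
  | zero =>
    intro x
    rw [cp_zero]
    simp [eq_comm]
  | succ N ih =>
    intro x
    rw [← (Fin.consEquiv (fun _ => Fin m)).sum_comp, Fintype.sum_prod_type]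
    have h1 : ∀ a : Fin m, (∑ t : Fin N → Fin m,
        if ((∑ i, L ((Fin.consEquiv (fun _ => Fin m)) (a, t) i) : ℤ) : ZMod n) = x
          then (1 : ℝ) else 0) = (m : ℝ) ^ N * cp (dist n L) N (x - ((L a : ℤ) : ZMod n)) := by
      intro a
      rw [← ih]
      refine Finset.sum_congr rfl fun t _ => ?_
      have h2 : ∑ i, L ((Fin.consEquiv (fun _ => Fin m)) (a, t) i) = L a + ∑ i, L (t i) := by
        rw [Fin.sum_univ_succ]
        simp [Fin.consEquiv]
      rw [h2]
      have h3 : (((L a + ∑ i, L (t i) : ℤ) : ZMod n) = x) ↔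
          (((∑ i, L (t i) : ℤ) : ZMod n) = x - ((L a : ℤ) : ZMod n)) := by
        rw [Int.cast_add]
        constructor
        · intro h; rw [← h]; ring
        · intro h; rw [h]; ring
      simp only [h3]
    rw [Finset.sum_congr rfl fun a _ => h1 a, ← Finset.mul_sum, cp_succ, pow_succ, mul_assoc]
    congr 1
    have h4 : ∀ y : ZMod n, dist n L y * cp (dist n L) N (x - y) =
        ∑ a : Fin m, if ((L a : ℤ) : ZMod n) = y then cp (dist n L) N (x - y) / m else 0 := by
      intro y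
      unfold dist
      rw [div_mul_eq_mul_div, Finset.sum_mul, Finset.sum_div]
      refine Finset.sum_congr rfl fun a _ => ?_
      split_ifs <;> simp
    rw [Finset.sum_congr rfl fun y _ => h4 y, Finset.sum_comm, Finset.mul_sum]
    refine Finset.sum_congr rfl fun a _ => ?_
    rw [Finset.sum_ite_eq]
    simp only [mem_univ, if_true]
    field_simp

lemma prob_eq (m : ℕ) (hm : 0 < m) (L : Fin m → ℤ) (k : ℕ) :
    prob n m L k = cp (dist n L) n (k : ZMod n) := by
  have hm0 : (0 : ℝ) < m := by exact_mod_cast hm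
  unfold prob
  rw [div_eq_iff (by positivity), mul_comm, ← count m hm L n (k : ZMod n),
    Finset.natCast_card_filter]
  refine Finset.sum_congr rfl fun t _ => ?_
  have h1 : ((∑ i, L (t i)) ≡ (k : ℤ) [ZMOD (n : ℤ)]) ↔
      (((∑ i, L (t i) : ℤ) : ZMod n) = (k : ZMod n)) := by
    rw [← ZMod.intCast_eq_intCast_iff]
    simp
  simp only [h1]

lemma dist_nonneg' (m : ℕ) (L : Fin m → ℤ) (y : ZMod n) : 0 ≤ dist n L y := by
  unfold dist
  apply div_nonneg _ (Nat.cast_nonneg m)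
  exact Finset.sum_nonneg fun a _ => by split_ifs <;> norm_num

lemma dist_sum (m : ℕ) (hm : 0 < m) (L : Fin m → ℤ) : ∑ y : ZMod n, dist n L y = 1 := by
  have hm0 : (0 : ℝ) < m := by exact_mod_cast hm
  unfold dist
  rw [← Finset.sum_div, Finset.sum_comm]
  simp only [Finset.sum_ite_eq, mem_univ, if_true, sum_const, card_univ, Fintype.card_fin,
    nsmul_eq_mul, mul_one]
  exact div_self hm0.ne'

lemma cong_iff (n : ℕ) (hn : 0 < n) (k j : ℕ) :
    ((j : ZMod n) * (k : ZMod n) = (k : ZMod n)) ↔ j ≡ 1 [MOD (n / n.gcd k)] := by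
  have h1 : ((j : ZMod n) * (k : ZMod n) = (k : ZMod n)) ↔ j * k ≡ 1 * k [MOD n] := by
    rw [← ZMod.natCast_eq_natCast_iff]
    push_cast
    rw [one_mul]
  rw [h1]
  constructor
  · intro h
    exact Nat.ModEq.cancel_right_div_gcd hn h
  · intro h
    have h2 := Nat.ModEq.mul_right' k h
    refine Nat.ModEq.of_dvd ?_ h2
    obtain ⟨k', hk'⟩ := Nat.gcd_dvd_right n k
    have h3 : n / n.gcd k * n.gcd k = n := Nat.div_mul_cancel (Nat.gcd_dvd_left n k)
    refine ⟨k', ?_⟩
    calc n / n.gcd k * k = n / n.gcd k * (n.gcd k * k') := by rw [← hk']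
      _ = n / n.gcd k * n.gcd k * k' := by ring
      _ = n * k' := by rw [h3]

lemma B_eq (n : ℕ) (hn : 0 < n) (k : ℕ) (q : ℝ) :
    B n (n / n.gcd k) q =
      ∑ j ∈ range (n + 1), (if (j : ZMod n) * (k : ZMod n) = (k : ZMod n) then bin q n j else 0) := by
  unfold B
  rw [Finset.sum_filter]
  refine Finset.sum_congr rfl fun j _ => ?_
  have := cong_iff n hn k j
  by_cases h : j ≡ 1 [MOD (n / n.gcd k)]
  · rw [if_pos h, if_pos (this.2 h)]
    rfl
  · rw [if_neg h, if_neg (fun h' => h (this.1 h'))]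

/-- a die with two values -/
lemma two_die (k s t : ℕ) (hst : 0 < s + t) :
    prob n (s + t) (fun a => if a.val < s then (k : ℤ) else 0) k =
      B n (n / n.gcd k) ((s : ℝ) / ((s + t : ℕ) : ℝ)) := by
  have hst0 : (0 : ℝ) < ((s + t : ℕ) : ℝ) := by exact_mod_cast hst
  rw [prob_eq (s + t) hst, B_eq n (NeZero.pos n)]
  have hd : dist n (fun a : Fin (s + t) => if a.val < s then (k : ℤ) else 0) =
      fun y : ZMod n => (if y = 0 then 1 - (s : ℝ) / ((s + t : ℕ) : ℝ) else 0) +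
        (if y = 0 + (k : ZMod n) then (s : ℝ) / ((s + t : ℕ) : ℝ) else 0) := by
    funext y
    unfold dist
    rw [Fin.sum_univ_add]
    have h1 : ∀ i : Fin s, (if (((if (Fin.castAdd t i).val < s then (k : ℤ) else 0) : ℤ) : ZMod n) = y
        then (1 : ℝ) else 0) = if y = (k : ZMod n) then 1 else 0 := by
      intro i
      rw [if_pos (show (Fin.castAdd t i).val < s by simp)]
      simp only [Int.cast_natCast, eq_comm]
    have h2 : ∀ i : Fin t, (if (((if (Fin.natAdd s i).val < s then (k : ℤ) else 0) : ℤ) : ZMod n) = y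
        then (1 : ℝ) else 0) = if y = 0 then 1 else 0 := by
      intro i
      rw [if_neg (show ¬ (Fin.natAdd s i).val < s by simp)]
      simp only [Int.cast_zero, eq_comm]
    rw [Finset.sum_congr rfl fun i _ => h1 i, Finset.sum_congr rfl fun i _ => h2 i]
    simp only [sum_const, card_univ, Fintype.card_fin, nsmul_eq_mul, zero_add]
    have h3 : 1 - (s : ℝ) / ((s + t : ℕ) : ℝ) = t / ((s + t : ℕ) : ℝ) := by
      rw [eq_div_iff hst0.ne', sub_mul, div_mul_cancel₀ _ hst0.ne']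
      push_cast
      ring
    rw [h3]
    split_ifs <;> simp <;> ring
  rw [hd, cp_two 0 (k : ZMod n)]
  simp

lemma B_cont (n r : ℕ) : Continuous (fun q : ℝ => B n r q) := by
  unfold B
  exact continuous_finsetSum _ fun j _ => by fun_prop

theorem main (k : ℕ) (hn : 2 ≤ n) (hk : 1 ≤ k) (hkn : k < n) :
    IsGreatest (B n (n / n.gcd k) '' Set.Icc 0 1) (M n k) := by
  obtain ⟨N, hN⟩ : ∃ N, n = N + 1 := ⟨n - 1, by omega⟩
  have hk0 : (k : ZMod n) ≠ 0 := by
    intro h
    rw [ZMod.natCast_eq_zero_iff] at h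
    exact absurd (Nat.le_of_dvd (by omega) h) (by omega)
  obtain ⟨p, hp, hs, hmax0⟩ := exists_opt n (k : ZMod n)
  have hmax : ∀ p' : ZMod n → ℝ, (∀ y, 0 ≤ p' y) → ∑ y, p' y = 1 →
      cp p' (N + 1) (k : ZMod n) ≤ cp p (N + 1) (k : ZMod n) := by
    intro p' h1 h2
    have := hmax0 p' h1 h2
    rw [← hN]
    exact this
  obtain ⟨q, hq0, hq1, hq⟩ := opt_form N hN (k : ZMod n) hk0 p hp hs hmax
  have hqB : cp p n (k : ZMod n) = B n (n / n.gcd k) q := by
    rw [B_eq n (by omega)]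
    rw [← hN] at hq
    exact hq
  have hup : ∀ q' : ℝ, 0 ≤ q' → q' ≤ 1 → B n (n / n.gcd k) q' ≤ B n (n / n.gcd k) q := by
    intro q' h1 h2
    rw [← hqB, B_eq n (by omega)]
    have := lower_cp N (k : ZMod n) p hmax q' h1 h2
    rw [← hN] at this
    exact this
  have hdie : ∀ x ∈ {x : ℝ | ∃ (m : ℕ) (L : Fin m → ℤ), 2 ≤ m ∧ x = prob n m L k},
      x ≤ B n (n / n.gcd k) q := by
    rintro x ⟨m, L, hm, rfl⟩
    rw [← hqB, prob_eq m (by omega)]
    exact hmax0 _ (fun y => dist_nonneg' m L y) (dist_sum m (by omega) L)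
  have hle : M n k ≤ B n (n / n.gcd k) q := by
    apply csSup_le
    · exact ⟨_, 2, fun _ => 0, le_rfl, rfl⟩
    · exact hdie
  have hge : B n (n / n.gcd k) q ≤ M n k := by
    have hlim : Filter.Tendsto (fun m : ℕ => ((⌊q * (m : ℝ)⌋₊ : ℕ) : ℝ) / (m : ℝ)) Filter.atTop
        (nhds q) := (tendsto_nat_floor_mul_div_atTop hq0).comp tendsto_natCast_atTop_atTop
    have hlim2 := ((B_cont n (n / n.gcd k)).tendsto q).comp hlim
    refine le_of_tendsto hlim2 ?_
    filter_upwards [Filter.eventually_ge_atTop 2] with m hm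
    have hfl : ⌊q * (m : ℝ)⌋₊ ≤ m := by
      apply Nat.floor_le_of_le
      have : (0 : ℝ) ≤ m := Nat.cast_nonneg m
      nlinarith
    obtain ⟨s, hs'⟩ : ∃ s, s = ⌊q * (m : ℝ)⌋₊ := ⟨_, rfl⟩
    rw [← hs'] at hfl
    obtain ⟨t, rfl⟩ := Nat.exists_eq_add_of_le hfl
    simp only [Function.comp]
    rw [← hs', ← two_die k s t (by omega)]
    exact le_csSup ⟨_, hdie⟩ ⟨s + t, _, hm, rfl⟩
  have hM : M n k = B n (n / n.gcd k) q := le_antisymm hle hge
  rw [hM]
  refine ⟨⟨q, ⟨hq0, hq1⟩, rfl⟩, ?_⟩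
  rintro x ⟨q', ⟨h1, h2⟩, rfl⟩
  exact hup q' h1 h2

/-- the coprime case -/
lemma B_full (n : ℕ) (hn : 2 ≤ n) (q : ℝ) : B n n q = n * q * (1 - q) ^ (n - 1) := by
  unfold B
  have h1 : (range (n + 1)).filter (fun j : ℕ => j ≡ 1 [MOD n]) = {1} := by
    ext j
    rw [mem_filter, mem_range, mem_singleton]
    constructor
    · rintro ⟨h1, h2⟩
      unfold Nat.ModEq at h2
      rw [Nat.mod_eq_of_lt (by omega : 1 < n)] at h2
      rcases Nat.lt_or_ge j n with h | h
      · rwa [Nat.mod_eq_of_lt h] at h2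
      · have : j = n := by omega
        rw [this, Nat.mod_self] at h2
        omega
    · rintro rfl
      exact ⟨by omega, rfl⟩
  rw [h1, Finset.sum_singleton, Nat.choose_one_right, pow_one]

lemma amgm (n : ℕ) (hn : 2 ≤ n) (q : ℝ) (h1 : q ≤ 1) :
    n * q * (1 - q) ^ (n - 1) ≤ (1 - 1 / (n : ℝ)) ^ (n - 1) := by
  obtain ⟨N, rfl⟩ : ∃ N, n = N + 2 := ⟨n - 2, by omega⟩
  have hN0 : (0 : ℝ) ≤ N := Nat.cast_nonneg N
  have e1 : N + 2 - 1 = N + 1 := by omega
  rw [e1]
  push_cast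
  obtain ⟨s, hs⟩ : ∃ s, s = (1 - q) * ((N : ℝ) + 2) / (N + 1) := ⟨_, rfl⟩
  have hs0 : 0 ≤ s := by
    rw [hs]
    have : 0 ≤ 1 - q := by linarith
    positivity
  have hq : 1 - q = s * (1 - 1 / ((N : ℝ) + 2)) := by
    rw [hs]
    field_simp
    ring
  have hnq : ((N : ℝ) + 2) * q = (N + 2) - s * (N + 1) := by
    rw [hs]
    field_simp
    ring
  have hpoly : ((N + 2) - s * ((N : ℝ) + 1)) * s ^ (N + 1) ≤ 1 := by
    rcases hs0.eq_or_lt with h | h
    · rw [← h]
      simp
    · have hb : 1 + ((N + 2 : ℕ) : ℝ) * (1 / s - 1) ≤ (1 + (1 / s - 1)) ^ (N + 2) := by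
        apply one_add_mul_le_pow
        have : 0 < 1 / s := by positivity
        linarith
      have hb2 : 1 + (1 / s - 1) = 1 / s := by ring
      rw [hb2] at hb
      have hb3 := mul_le_mul_of_nonneg_right hb (by positivity : 0 ≤ s ^ (N + 2))
      have hb4 : (1 / s) ^ (N + 2) * s ^ (N + 2) = 1 := by
        rw [← mul_pow, one_div, inv_mul_cancel₀ h.ne', one_pow]
      rw [hb4] at hb3
      have hb5 : (1 + ((N + 2 : ℕ) : ℝ) * (1 / s - 1)) * s ^ (N + 2) =
          ((N + 2) - s * ((N : ℝ) + 1)) * s ^ (N + 1) := by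
        push_cast
        field_simp
        ring
      rw [hb5] at hb3
      exact hb3
  have hpos : 0 ≤ 1 - 1 / ((N : ℝ) + 2) := by
    have : 1 / ((N : ℝ) + 2) ≤ 1 := by
      rw [div_le_one (by positivity)]; linarith
    linarith
  rw [hq, hnq, mul_pow, ← mul_assoc]
  calc ((N + 2) - s * ((N : ℝ) + 1)) * s ^ (N + 1) * (1 - 1 / ((N : ℝ) + 2)) ^ (N + 1)
      ≤ 1 * (1 - 1 / ((N : ℝ) + 2)) ^ (N + 1) :=
        mul_le_mul_of_nonneg_right hpoly (by positivity)
    _ = _ := one_mul _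

lemma coprime_case (k : ℕ) (hn : 2 ≤ n) (hk : 1 ≤ k) (hkn : k < n) (hc : n.Coprime k) :
    M n k = (1 - 1 / (n : ℝ)) ^ (n - 1) := by
  have h := main (n := n) k hn hk hkn
  have hg : n / n.gcd k = n := by rw [hc]; exact Nat.div_one n
  rw [hg] at h
  have hn0 : (0 : ℝ) < n := by exact_mod_cast (by omega : 0 < n)
  have hn1 : (1 : ℝ) ≤ n := by exact_mod_cast (by omega : 1 ≤ n)
  apply le_antisymm
  · obtain ⟨q, ⟨_, hq1⟩, hq⟩ := h.1
    rw [← hq, B_full n hn]
    exact amgm n hn q hq1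
  · have h2 := h.2 ⟨1 / (n : ℝ), ⟨by positivity, by rw [div_le_one hn0]; exact hn1⟩, rfl⟩
    rw [B_full n hn, mul_one_div_cancel hn0.ne', one_mul] at h2
    exact h2

lemma B_two (n : ℕ) (q : ℝ) : B n 2 q = (1 - (1 - 2 * q) ^ n) / 2 := by
  have h1 := add_pow q (1 - q) n
  have h2 := add_pow (-q) (1 - q) n
  have h3 : q + (1 - q) = 1 := by ring
  have h4 : -q + (1 - q) = 1 - 2 * q := by ring
  rw [h3, one_pow] at h1
  rw [h4] at h2
  rw [h2]
  nth_rewrite 1 [h1]
  rw [← Finset.sum_sub_distrib, Finset.sum_div]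
  unfold B
  rw [Finset.sum_filter]
  refine Finset.sum_congr rfl fun j _ => ?_
  rw [neg_pow q j]
  rcases Nat.even_or_odd j with hj | hj
  · have : ¬ (j ≡ 1 [MOD 2]) := by
      unfold Nat.ModEq
      rw [Nat.even_iff] at hj
      omega
    rw [if_neg this, hj.neg_one_pow]
    ring
  · have : j ≡ 1 [MOD 2] := by
      unfold Nat.ModEq
      rw [Nat.odd_iff] at hj
      omega
    rw [if_pos this, hj.neg_one_pow]
    ring

lemma half_case (k : ℕ) (hk : 1 ≤ k) : M (2 * k) k = 1 / 2 := by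
  haveI : NeZero (2 * k) := ⟨by omega⟩
  have h := main (n := 2 * k) k (by omega) hk (by omega)
  have hg : 2 * k / (2 * k).gcd k = 2 := by
    have : (2 * k).gcd k = k := Nat.gcd_eq_right (Dvd.intro_left 2 rfl)
    rw [this]
    exact Nat.mul_div_cancel _ (by omega)
  rw [hg] at h
  apply le_antisymm
  · obtain ⟨q, _, hq⟩ := h.1
    rw [← hq, B_two, pow_mul]
    have : 0 ≤ ((1 - 2 * q) ^ 2) ^ k := by positivity
    linarith
  · have h2 := h.2 ⟨1 / 2, ⟨by norm_num, by norm_num⟩, rfl⟩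
    rw [B_two] at h2
    have h3 : (1 : ℝ) - 2 * (1 / 2) = 0 := by norm_num
    rw [h3, zero_pow (by omega)] at h2
    linarith

/-- **Main result.** For `2 ≤ n` and `1 ≤ k < n` the quantity `M n k` is the maximum over
`q ∈ [0, 1]` of `B n (n / gcd n k) q`, the probability that a binomial variable with parameters
`n, q` is congruent to `1` modulo `n / gcd n k`.  The value `B n (n / gcd n k) q` for
`q = s / (s + t)` is attained by the die with `s` faces labelled `k` and `t` faces labelled `0`.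
In the coprime case `M n k = (1 - 1/n)^(n-1)`, and `M (2 k) k = 1/2`. -/
theorem result :
    (∀ n k : ℕ, 2 ≤ n → 1 ≤ k → k < n →
      IsGreatest (B n (n / n.gcd k) '' Set.Icc 0 1) (M n k)) ∧
    (∀ n k s t : ℕ, 1 ≤ n → 0 < s + t →
      prob n (s + t) (fun a => if a.val < s then (k : ℤ) else 0) k =
        B n (n / n.gcd k) ((s : ℝ) / ((s + t : ℕ) : ℝ))) ∧
    (∀ n k : ℕ, 2 ≤ n → 1 ≤ k → k < n → n.Coprime k → M n k = (1 - 1 / (n : ℝ)) ^ (n - 1)) ∧
    (∀ k : ℕ, 1 ≤ k → M (2 * k) k = 1 / 2) := by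
  refine ⟨fun n k hn hk hkn => ?_, fun n k s t hn hst => ?_, fun n k hn hk hkn hc => ?_, half_case⟩
  · haveI : NeZero n := ⟨by omega⟩
    exact main k hn hk hkn
  · haveI : NeZero n := ⟨by omega⟩
    exact two_die k s t hst
  · haveI : NeZero n := ⟨by omega⟩
    exact coprime_case k hn hk hkn hc

end Pool.Agent.Results.MP_f30851_co.TwoValuedDice
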